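import Pool.Agent.TH111.DQ.Nodes
import Pool.Agent.TH844.DL.Arch
import Pool.Agent.TH11.DLLagr
import Pool.Agent.TH620.DL.Entry

/-! Assembly of the archimedean bound for `|Q| ≥ 3` (port of `TH844/DL/Arch.lean` by helper844). -/

open Finset Polynomial Pool.Agent.H337R2 Pool.Agent.LP

namespace Pool.Agent.TH50.DQ

open Pool.Agent.TH844.DL (E2 E2_eq E2_insert PY PY_pos PY_insert log_small lag wt tm Ph)

noncomputable section

/-- the three sets of nodes -/
lemma sets (N m : ℕ) (hN : 1 ≤ N) (h1 : 4 * (10000 * N) - 1 ≤ m) (h2 : m ≤ 4 * (10000 * N) + 1) :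
    ∃ Y : Finset ℝ, Y.card = m ∧ (∀ s : ℝ, 1 ≤ s → PY Y s ≤ (10000 * N + s) ^ 2 * PY (YN N) s) ∧
      E2 (YN N) - 16 * (10000 * N) * Real.log (10000 * N) ≤ E2 Y := by
  obtain ⟨hc, hr⟩ := A_card N hN
  have hN0 : (1 : ℝ) ≤ N := by exact_mod_cast hN
  obtain ⟨n, hn⟩ : ∃ n : ℝ, n = 10000 * N := ⟨_, rfl⟩
  rw [← hn]
  have hn1 : 10000 ≤ n := by linarith
  have hl0 : 0 ≤ Real.log n := Real.log_nonneg (by linarith)
  have hone : ∀ s : ℝ, 1 ≤ s → PY (YN N) s ≤ (n + s) ^ 2 * PY (YN N) s := by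
    intro s hs
    have := PY_pos (YN N) s
    have h3 : 1 ≤ (n + s) ^ 2 := by nlinarith
    nlinarith
  rcases (by omega : m = 4 * (10000 * N) - 1 ∨ m = 4 * (10000 * N) ∨ m = 4 * (10000 * N) + 1) with h | h | h
  · have hne : (YN N).Nonempty := by
      rw [← card_pos, hc]
      omega
    obtain ⟨a, ha⟩ := hne
    have hna : a ∉ (YN N).erase a := notMem_erase a _
    refine ⟨(YN N).erase a, ?_, ?_, ?_⟩
    · rw [card_erase_of_mem ha, hc, h]
      omega
    · intro s hs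
      refine le_trans ?_ (hone s hs)
      have h4 := PY_insert hna s
      rw [insert_erase ha] at h4
      rw [h4]
      have h5 := PY_pos ((YN N).erase a) s
      have := abs_nonneg (s - a)
      nlinarith
    · have h4 := E2_insert hna
      rw [insert_erase ha] at h4
      rw [h4]
      have h5 : ∑ z ∈ (YN N).erase a, Real.log |a - z| ≤ ∑ z ∈ (YN N).erase a, 2 * Real.log n := by
        refine sum_le_sum fun z hz => ?_
        rw [mem_erase] at hz
        have h6 := hr a ha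
        have h7 := hr z hz.2
        have h8 : 0 < |a - z| := abs_pos.2 (sub_ne_zero.2 (Ne.symm hz.1))
        have h9 : |a - z| ≤ n * n := by
          rw [abs_le]
          have : 112700 * (N : ℝ) ≤ n * n := by rw [hn]; nlinarith
          constructor <;> linarith
        calc Real.log |a - z| ≤ Real.log (n * n) := Real.log_le_log h8 h9
          _ = 2 * Real.log n := by rw [Real.log_mul (by linarith) (by linarith)]; ring
      rw [sum_const, nsmul_eq_mul, card_erase_of_mem ha, hc] at h5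
      have h10 : ((40000 * N - 1 : ℕ) : ℝ) ≤ 4 * n := by
        rw [hn]
        have : ((40000 * N - 1 : ℕ) : ℝ) ≤ ((40000 * N : ℕ) : ℝ) := by exact_mod_cast Nat.sub_le _ _
        push_cast at this
        linarith
      have h11 : ((40000 * N - 1 : ℕ) : ℝ) * (2 * Real.log n) ≤ 4 * n * (2 * Real.log n) :=
        mul_le_mul_of_nonneg_right h10 (by linarith)
      linarith
  · refine ⟨YN N, by rw [hc, h]; ring, hone, ?_⟩
    have : 0 ≤ 16 * n * Real.log n := by positivity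
    linarith
  · have hna : (112700 * (N : ℝ) + 1) ∉ YN N := by
      intro hmem
      have := (hr _ hmem).2
      linarith
    refine ⟨insert (112700 * (N : ℝ) + 1) (YN N), ?_, ?_, ?_⟩
    · rw [card_insert_of_notMem hna, hc, h]
      ring
    · intro s hs
      rw [PY_insert hna]
      apply mul_le_mul_of_nonneg_right _ (PY_pos _ _).le
      have h3 : |s - (112700 * (N : ℝ) + 1)| ≤ s + (112700 * (N : ℝ) + 1) := by
        rw [abs_le]
        constructor <;> linarith
      have h4 : 112700 * (N : ℝ) = 11.27 * n := by rw [hn]; ring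
      rw [h4] at h3 ⊢
      nlinarith
    · rw [E2_insert hna]
      have h5 : 0 ≤ ∑ z ∈ YN N, Real.log |112700 * (N : ℝ) + 1 - z| := by
        refine sum_nonneg fun z hz => Real.log_nonneg ?_
        have := (hr z hz).2
        rw [abs_of_nonneg (by linarith)]
        linarith
      have : 0 ≤ 16 * n * Real.log n := by positivity
      linarith

/-- the exponent of one term -/
lemma expo {lq κ lQ : ℝ} (hc : ∀ v : ℝ, 0 ≤ v → v ≤ 24 → 2 * UU v + Ph v ≤ lq * v - κ)
    (ht : ∀ v : ℝ, 24 ≤ v → 2 * UU v + Ph v ≤ lq * v - κ - (v - 24) / 4) (hlq : lq ≤ lQ)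
    {C n x : ℝ} (hC : 0 ≤ C) (hn : 10000 ≤ n) (hnC : C + 4 ≤ n) (hx : 1 ≤ x) :
    n * (2 * UU (x / n) + Ph (x / n)) - x * lQ + C * Real.log (n + x) ≤
      -κ * n + C * (2 * Real.log n) + 24 - x / n := by
  have hn0 : 0 < n := by linarith
  have hl2 : lq * x ≤ x * lQ := by nlinarith
  have hxn : x / n * n = x := by field_simp
  have h27 : Real.log (25 * n) ≤ 2 * Real.log n := by
    rw [two_mul, ← Real.log_mul hn0.ne' hn0.ne']
    exact Real.log_le_log (by positivity) (by nlinarith)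
  have h27C := mul_le_mul_of_nonneg_left h27 hC
  rcases le_total (x / n) 24 with h | h
  · have h1 := hc (x / n) (by positivity) h
    have h2 := mul_le_mul_of_nonneg_left h1 hn0.le
    have h3 : Real.log (n + x) ≤ Real.log (25 * n) := by
      apply Real.log_le_log (by positivity)
      have : x / n * n ≤ 24 * n := mul_le_mul_of_nonneg_right h hn0.le
      rw [hxn] at this
      linarith
    have h4 := mul_le_mul_of_nonneg_left h3 hC
    have h5 : n * (lq * (x / n) - κ) = lq * x - κ * n := by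
      field_simp
    rw [h5] at h2
    linarith
  · have h1 := ht (x / n) h
    have h2 := mul_le_mul_of_nonneg_left h1 hn0.le
    have h6 : 24 * n ≤ x := by
      have : 24 * n ≤ x / n * n := mul_le_mul_of_nonneg_right h hn0.le
      rwa [hxn] at this
    have h3 : Real.log (n + x) ≤ Real.log (25 * n) + (x - 24 * n) / (25 * n) := by
      have h7 : Real.log ((n + x) / (25 * n)) ≤ (n + x) / (25 * n) - 1 :=
        Real.log_le_sub_one_of_pos (by positivity)
      rw [Real.log_div (by positivity) (by positivity)] at h7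
      have h8 : (n + x) / (25 * n) - 1 = (x - 24 * n) / (25 * n) := by
        field_simp
        ring
      linarith
    have h4 := mul_le_mul_of_nonneg_left h3 hC
    have h5 : n * (lq * (x / n) - κ - (x / n - 24) / 4) = lq * x - κ * n - (x - 24 * n) / 4 := by
      field_simp
    rw [h5] at h2
    have h9 : 24 - x / n = -((x - 24 * n) / n) := by
      field_simp
      ring
    have h10 : C * ((x - 24 * n) / (25 * n)) + (x - 24 * n) / n ≤ (x - 24 * n) / 4 := by
      have e : C * ((x - 24 * n) / (25 * n)) + (x - 24 * n) / n = (x - 24 * n) * ((C / 25 + 1) / n) := by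
        field_simp
      rw [e]
      have h11 : (C / 25 + 1) / n ≤ 1 / 4 := by
        rw [div_le_div_iff₀ hn0 (by norm_num)]
        linarith
      have := mul_le_mul_of_nonneg_left h11 (by linarith : 0 ≤ x - 24 * n)
      linarith
    linarith

/-- bound of the functional on products of Lagrange polynomials -/
theorem T_bound {Q : ℤ} {lq κ : ℝ} (hQ : 2 ≤ |(Q : ℝ)|)
    (h5 : ∀ v : ℝ, 0 ≤ v → v ≤ 24 → 2 * UU v + Ph v ≤ lq * v - κ)
    (h6 : ∀ v : ℝ, 24 ≤ v → 2 * UU v + Ph v ≤ lq * v - κ - (v - 24) / 4)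
    (hlq : lq ≤ Real.log |(Q : ℝ)|) : ∃ C : ℝ, 0 < C ∧ ∃ N0 : ℕ,
    ∀ N ≥ N0, ∀ (α β : ℝ) (Y : Finset ℝ), (∀ s : ℝ, 1 ≤ s → PY Y s ≤ (10000 * N + s) ^ 2 * PY (YN N) s) →
      ∀ T : ℝ[X] →ₗ[ℝ] ℝ, (∀ f : ℝ[X], HasSum (tmQ Q (10000 * N) (5 * (10000 * N)) α β f) (T f)) →
      ∀ y ∈ Y, ∀ z ∈ Y, |T (lag Y y * lag Y z)| ≤ (|α| + |β|) *
        Real.exp (-κ * (10000 * N) + 5 * (10000 * N) * Real.log (10000 * N) + C * Real.log (10000 * N)) := by
  obtain ⟨C1, hC1, hw⟩ := TH844.DL.A_weight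
  obtain ⟨C2, hC2, hp⟩ := A_pot
  obtain ⟨C3, hC3⟩ : ∃ C3 : ℝ, C3 = C1 + 2 * C2 + 4 := ⟨_, rfl⟩
  have hC30 : 0 ≤ C3 := by linarith
  refine ⟨2 * C3 + 29, by linarith, ⌈C3⌉₊ + 5, ?_⟩
  intro N hN α β Y hY T hT y hy z hz
  have hN1 : 1 ≤ N := by omega
  have hNC : C3 + 4 ≤ N := by
    have := Nat.le_ceil C3
    have h9 : ((⌈C3⌉₊ + 5 : ℕ) : ℝ) ≤ N := by exact_mod_cast hN
    push_cast at h9
    linarith
  have hN0 : (1 : ℝ) ≤ N := by exact_mod_cast hN1
  obtain ⟨n, hn⟩ : ∃ n : ℝ, n = 10000 * N := ⟨_, rfl⟩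
  have hcast : ((10000 * N : ℕ) : ℝ) = n := by rw [hn]; push_cast; ring
  rw [← hn] at hY ⊢
  have hn0 : 0 < n := by linarith
  have hn1 : 10000 ≤ n := by linarith
  have hnC : C3 + 4 ≤ n := by linarith
  have hL1 : 1 ≤ Real.log n := by
    rw [Real.le_log_iff_exp_le (by linarith)]
    linarith [Real.exp_one_lt_d9]
  obtain ⟨K, hK⟩ : ∃ K : ℝ, K = (|α| + |β|) * (5 * n + 2) *
    Real.exp (-κ * n + 5 * n * Real.log n + C3 * (2 * Real.log n) + 24) := ⟨_, rfl⟩
  have hK0 : 0 ≤ K := by rw [hK]; positivity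
  -- termwise
  have hterm : ∀ s : ℕ, ‖tmQ Q (10000 * N) (5 * (10000 * N)) α β (lag Y y * lag Y z) s‖ ≤
      K * (Real.exp (-(1 / n)) * Real.exp (-(1 / n)) ^ s) := by
    intro s
    rw [Real.norm_eq_abs]
    obtain ⟨x, hx⟩ : ∃ x : ℝ, x = (s : ℝ) + 1 := ⟨_, rfl⟩
    have hx1 : 1 ≤ x := by rw [hx]; have : (0 : ℝ) ≤ s := Nat.cast_nonneg s; linarith
    have e1 := TH844.DL.A_entry (10000 * N) (5 * (10000 * N)) (by omega) (by omega) α β Y y hy z hz s
    rw [← hx] at e1
    have e1' : |tmQ Q (10000 * N) (5 * (10000 * N)) α β (lag Y y * lag Y z) s| ≤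
        (1 / |(Q : ℝ)|) ^ (s + 1) * ((|α| + |β|) * (((5 * (10000 * N) : ℕ) : ℝ) + 2)) *
          (wt (10000 * N) (5 * (10000 * N)) x * PY Y x ^ 2) := by
      rw [tmQ_eq, abs_mul, abs_pow, abs_div, abs_two]
      have h9 := mul_le_mul_of_nonneg_left e1 (by positivity : 0 ≤ (2 / |(Q : ℝ)|) ^ (s + 1))
      refine h9.trans (le_of_eq ?_)
      have e : (1 / |(Q : ℝ)|) ^ (s + 1) = (2 / |(Q : ℝ)|) ^ (s + 1) * (1 / 2) ^ (s + 1) := by
        rw [← mul_pow]
        congr 1
        ring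
      rw [e]
      ring
    have hw1 := hw (10000 * N) (by omega) x hx1
    rw [hcast] at hw1
    have hp1 := hp N hN1 x hx1
    rw [← hn] at hp1
    have hwt : wt (10000 * N) (5 * (10000 * N)) x ≤
        Real.exp (n * Ph (x / n) - 3 * n * Real.log n + C1 * Real.log (n + x)) := by
      rw [← Real.exp_log hw1.1]
      exact Real.exp_le_exp.2 hw1.2
    have hPY0 : PY (YN N) x = Real.exp (∑ y ∈ YN N, Real.log (|x - y| + 1)) := by
      rw [Real.exp_sum]
      exact prod_congr rfl fun u _ => (Real.exp_log (by positivity)).symm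
    have hPY : PY Y x ≤ Real.exp (2 * Real.log (n + x) + (n * UU (x / n) + 4 * n * Real.log n +
        C2 * Real.log (n + x))) := by
      rw [Real.exp_add]
      have e3 : Real.exp (2 * Real.log (n + x)) = (n + x) ^ 2 := by
        rw [two_mul, Real.exp_add, Real.exp_log (by linarith), sq]
      rw [e3]
      refine (hY x hx1).trans (mul_le_mul_of_nonneg_left ?_ (by positivity))
      rw [hPY0]
      exact Real.exp_le_exp.2 hp1
    have hPY2 : PY Y x ^ 2 ≤ Real.exp (2 * (2 * Real.log (n + x) + (n * UU (x / n) + 4 * n * Real.log n +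
        C2 * Real.log (n + x)))) := by
      rw [two_mul (2 * Real.log (n + x) + _), Real.exp_add, ← sq]
      exact pow_le_pow_left₀ (PY_pos _ _).le hPY 2
    have hhalf : (1 / |(Q : ℝ)|) ^ (s + 1) = Real.exp (-(x * Real.log |(Q : ℝ)|)) := by
      rw [hx]
      rw [← Real.exp_log (show (0 : ℝ) < 1 / |(Q : ℝ)| by positivity), ← Real.exp_nat_mul]
      congr 1
      rw [one_div, Real.log_inv]
      push_cast
      ring
    have hmul : wt (10000 * N) (5 * (10000 * N)) x * PY Y x ^ 2 ≤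
        Real.exp (n * Ph (x / n) - 3 * n * Real.log n + C1 * Real.log (n + x)) *
        Real.exp (2 * (2 * Real.log (n + x) + (n * UU (x / n) + 4 * n * Real.log n +
        C2 * Real.log (n + x)))) :=
      mul_le_mul hwt hPY2 (by positivity) (Real.exp_pos _).le
    have hex := expo h5 h6 hlq hC30 hn1 hnC hx1
    have hfin : (1 / |(Q : ℝ)|) ^ (s + 1) * (wt (10000 * N) (5 * (10000 * N)) x * PY Y x ^ 2) ≤
        Real.exp (-κ * n + 5 * n * Real.log n + C3 * (2 * Real.log n) + 24) * Real.exp (-(x / n)) := by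
      rw [hhalf]
      refine (mul_le_mul_of_nonneg_left hmul (Real.exp_pos _).le).trans ?_
      rw [← Real.exp_add, ← Real.exp_add, ← Real.exp_add]
      apply Real.exp_le_exp.2
      rw [hC3] at hex ⊢
      linarith
    have hr : Real.exp (-(1 / n)) * Real.exp (-(1 / n)) ^ s = Real.exp (-(x / n)) := by
      rw [← Real.exp_nat_mul, ← Real.exp_add]
      congr 1
      rw [hx]
      field_simp
      ring
    rw [hr, hK]
    refine e1'.trans ?_
    have hb : (((5 * (10000 * N) : ℕ) : ℝ) + 2) = 5 * n + 2 := by rw [hn]; push_cast; ring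
    rw [hb]
    have hαβ : 0 ≤ (|α| + |β|) * (5 * n + 2) := by positivity
    calc (1 / |(Q : ℝ)|) ^ (s + 1) * ((|α| + |β|) * (5 * n + 2)) * (wt (10000 * N) (5 * (10000 * N)) x * PY Y x ^ 2)
        = ((|α| + |β|) * (5 * n + 2)) * ((1 / |(Q : ℝ)|) ^ (s + 1) *
          (wt (10000 * N) (5 * (10000 * N)) x * PY Y x ^ 2)) := by ring
      _ ≤ ((|α| + |β|) * (5 * n + 2)) * (Real.exp (-κ * n + 5 * n * Real.log n + C3 * (2 * Real.log n) + 24) *
          Real.exp (-(x / n))) := mul_le_mul_of_nonneg_left hfin hαβ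
      _ = _ := by ring
  have hr0 : 0 ≤ Real.exp (-(1 / n)) := (Real.exp_pos _).le
  have hr1 : Real.exp (-(1 / n)) < 1 := by
    rw [Real.exp_lt_one_iff]
    have : 0 < 1 / n := by positivity
    linarith
  have hgeo : HasSum (fun s : ℕ => K * (Real.exp (-(1 / n)) * Real.exp (-(1 / n)) ^ s))
      (K * (Real.exp (-(1 / n)) * (1 - Real.exp (-(1 / n)))⁻¹)) :=
    ((hasSum_geometric_of_lt_one hr0 hr1).mul_left _).mul_left _
  have hbd := tsum_of_norm_bounded hgeo hterm
  rw [(hT (lag Y y * lag Y z)).tsum_eq, Real.norm_eq_abs] at hbd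
  refine hbd.trans ?_
  have hgn : Real.exp (-(1 / n)) * (1 - Real.exp (-(1 / n)))⁻¹ ≤ n := by
    rw [← div_eq_mul_inv, div_le_iff₀ (by linarith)]
    have h9 : 1 / n + 1 ≤ Real.exp (1 / n) := Real.add_one_le_exp _
    have h10 : Real.exp (-(1 / n)) * Real.exp (1 / n) = 1 := by
      rw [← Real.exp_add]; simp
    have h11 : Real.exp (-(1 / n)) * (1 / n + 1) ≤ 1 := by
      have h15 := mul_le_mul_of_nonneg_left h9 hr0
      rw [h10] at h15
      exact h15
    have h12 : n * (1 / n) = 1 := by field_simp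
    have h13 : n * (Real.exp (-(1 / n)) * (1 / n + 1)) ≤ n * 1 := mul_le_mul_of_nonneg_left h11 hn0.le
    have h14 : n * (Real.exp (-(1 / n)) * (1 / n + 1)) = Real.exp (-(1 / n)) * (n * (1 / n)) + n * Real.exp (-(1 / n)) := by
      ring
    rw [h14, h12] at h13
    linarith
  refine (mul_le_mul_of_nonneg_left hgn hK0).trans ?_
  rw [hK]
  have e5 : (5 * n + 2) * n ≤ Real.exp (3 * Real.log n) := by
    have : Real.exp (3 * Real.log n) = n ^ 3 := by
      have e6 : (3 : ℝ) * Real.log n = ((3 : ℕ) : ℝ) * Real.log n := by norm_num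
      rw [e6, Real.exp_nat_mul, Real.exp_log hn0]
    rw [this]
    nlinarith [sq_nonneg n]
  calc (|α| + |β|) * (5 * n + 2) * Real.exp (-κ * n + 5 * n * Real.log n + C3 * (2 * Real.log n) + 24) * n
      = (|α| + |β|) * (((5 * n + 2) * n) * Real.exp (-κ * n + 5 * n * Real.log n + C3 * (2 * Real.log n) + 24)) := by
        ring
    _ ≤ (|α| + |β|) * (Real.exp (3 * Real.log n) *
        Real.exp (-κ * n + 5 * n * Real.log n + C3 * (2 * Real.log n) + 24)) := by
        apply mul_le_mul_of_nonneg_left _ (by positivity)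
        exact mul_le_mul_of_nonneg_right e5 (Real.exp_pos _).le
    _ ≤ _ := by
        apply mul_le_mul_of_nonneg_left _ (by positivity)
        rw [← Real.exp_add]
        apply Real.exp_le_exp.2
        nlinarith


theorem arch_core (h2 : S_bridge) (h7 : S_QQ) {Q : ℤ} {lq κ : ℝ} (hQ : 2 ≤ |Q|) (hκ0 : 0 ≤ κ)
    (hκ6 : κ ≤ 6) (h5 : ∀ v : ℝ, 0 ≤ v → v ≤ 24 → 2 * UU v + Ph v ≤ lq * v - κ)
    (h6 : ∀ v : ℝ, 24 ≤ v → 2 * UU v + Ph v ≤ lq * v - κ - (v - 24) / 4)
    (hlq : lq ≤ Real.log |(Q : ℝ)|) (α β γ : ℤ) (hr : (γ : ℝ) + α * li Q 1 + β * li Q 2 = 0) :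
    ∃ c : ℝ, 0 < c ∧ ∃ N0 : ℕ, ∀ N ≥ N0, ∀ m : ℕ, 4 * (10000 * N) - 1 ≤ m → m ≤ 4 * (10000 * N) + 1 →
      |((DD Q (10000 * N) (5 * (10000 * N)) m α β γ : ℚ) : ℝ)| ≤ c ^ m *
        Real.exp (4 * (10000 * (N : ℝ)) ^ 2 * Real.log (10000 * (N : ℝ)) -
          (4 * κ + 7.7) * (10000 * (N : ℝ)) ^ 2) := by
  have hQ' : 2 ≤ |(Q : ℝ)| := by
    rw [← Int.cast_abs]
    exact_mod_cast hQ
  have h1 : TH844.DL.S_lagr := TH844.DL.A_lagr
  obtain ⟨C, hC, N1, hT⟩ := T_bound hQ' h5 h6 hlq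
  obtain ⟨C4, hC4, hE⟩ := A_energy
  obtain ⟨c, hc⟩ : ∃ c : ℝ, c = |(α : ℝ)| + |(β : ℝ)| + 1 := ⟨_, rfl⟩
  have hc1 : 1 ≤ c := by rw [hc]; have := abs_nonneg (α : ℝ); have := abs_nonneg (β : ℝ); linarith
  obtain ⟨N2, hN2⟩ := log_small (C4 + 5 * C + 40)
  refine ⟨c, by linarith, N1 + N2 + 1, ?_⟩
  intro N hN m hm1 hm2
  have hN1 : 1 ≤ N := by omega
  have hlog := hN2 N (by omega)
  obtain ⟨Y, hYc, hYP, hYE⟩ := sets N m hN1 hm1 hm2
  obtain ⟨T, hTL, hTs⟩ := h2 Q hQ (10000 * N) (5 * (10000 * N)) (by omega) (by omega) α β γ (by push_cast; exact hr)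
  have hTb := hT N (by omega) ((α : ℚ) : ℝ) ((β : ℚ) : ℝ) Y hYP T hTs
  have hEn := hE N hN1
  rw [E2_eq] at hEn
  have hN0 : (1 : ℝ) ≤ N := by exact_mod_cast hN1
  have hmn : (m : ℝ) ≤ 4 * (10000 * N) + 1 := by exact_mod_cast hm2
  have hmn2 : 4 * (10000 * (N : ℝ)) - 1 ≤ m := by
    have : 4 * (10000 * N) ≤ m + 1 := by omega
    have h9 : ((4 * (10000 * N) : ℕ) : ℝ) ≤ ((m + 1 : ℕ) : ℝ) := by exact_mod_cast this
    push_cast at h9
    linarith
  obtain ⟨n, hn⟩ : ∃ n : ℝ, n = 10000 * N := ⟨_, rfl⟩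
  rw [← hn] at hTb hEn hYE hlog hmn hmn2 ⊢
  have hn0 : 0 < n := by linarith
  have hn1 : 10000 ≤ n := by linarith
  have hL1 : 1 ≤ Real.log n := by
    rw [Real.le_log_iff_exp_le (by linarith)]
    linarith [Real.exp_one_lt_d9]
  obtain ⟨A, hA⟩ : ∃ A : ℝ, A = c * Real.exp (-κ * n + 5 * n * Real.log n + C * Real.log n) := ⟨_, rfl⟩
  have hA0 : 0 ≤ A := by rw [hA]; positivity
  have hdet := h1 Y T A hA0 (fun y hy z hz => (hTb y hy z hz).trans (by
    rw [hA, hc]
    apply mul_le_mul_of_nonneg_right _ (Real.exp_pos _).le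
    push_cast
    linarith))
  -- the product of the differences
  obtain ⟨V, hV⟩ : ∃ V : ℝ, V = ∏ y ∈ Y, ∏ z ∈ Y.erase y, |y - z| := ⟨_, rfl⟩
  rw [← hV] at hdet
  have hne : ∀ y ∈ Y, ∀ z ∈ Y.erase y, |y - z| ≠ 0 := by
    intro y _ z hz
    exact abs_ne_zero.2 (sub_ne_zero.2 (Ne.symm (ne_of_mem_erase hz)))
  have hVpos : 0 < V := by
    rw [hV]
    exact prod_pos fun y hy => prod_pos fun z hz => lt_of_le_of_ne (abs_nonneg _) (Ne.symm (hne y hy z hz))
  have hVlog : Real.log V = E2 Y := by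
    rw [hV, Real.log_prod (fun y hy => prod_ne_zero_iff.2 (hne y hy)), ← E2_eq]
    exact sum_congr rfl fun y hy => Real.log_prod (fun z hz => hne y hy z hz)
  -- the determinant
  have hDD : |((DD Q (10000 * N) (5 * (10000 * N)) m α β γ : ℚ) : ℝ)| =
      |(Matrix.of fun i j : Fin m => T (X ^ ((i : ℕ) + (j : ℕ)))).det| := by
    congr 1
    unfold DD
    have e0 : ∀ M : Matrix (Fin m) (Fin m) ℚ, ((M.det : ℚ) : ℝ) =
        ((algebraMap ℚ ℝ).mapMatrix M).det := by
      intro M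
      rw [← RingHom.map_det]
      rfl
    rw [e0]
    congr 1
    ext i j
    simp only [RingHom.mapMatrix_apply, Matrix.map_apply, Matrix.of_apply]
    exact hTL _
  rw [hDD]
  have hfac : ((Y.card).factorial : ℝ) ≤ Real.exp (m * Real.log m) := by
    rw [hYc]
    have hm0 : (0 : ℝ) < m := by linarith
    rw [mul_comm, Real.exp_mul, Real.exp_log hm0, Real.rpow_natCast]
    exact_mod_cast Nat.factorial_le_pow m
  have hAm : A ^ m = c ^ m * Real.exp (m * (-κ * n + 5 * n * Real.log n + C * Real.log n)) := by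
    rw [hA, mul_pow, ← Real.exp_nat_mul]
  rw [hYc, hAm] at hdet
  rw [hYc] at hfac
  have hc0 : 0 < c := by linarith
  have hfin : |(Matrix.of fun i j : Fin m => T (X ^ ((i : ℕ) + (j : ℕ)))).det| ≤ c ^ m *
      Real.exp (m * Real.log m + m * (-κ * n + 5 * n * Real.log n + C * Real.log n) - Real.log V) := by
    rw [Real.exp_sub, Real.exp_log hVpos, mul_div_assoc', le_div_iff₀ hVpos, Real.exp_add]
    refine hdet.trans ?_
    calc (m.factorial : ℝ) * (c ^ m * Real.exp (m * (-κ * n + 5 * n * Real.log n + C * Real.log n)))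
        = c ^ m * ((m.factorial : ℝ) * Real.exp (m * (-κ * n + 5 * n * Real.log n + C * Real.log n))) := by ring
      _ ≤ c ^ m * (Real.exp (m * Real.log m) *
          Real.exp (m * (-κ * n + 5 * n * Real.log n + C * Real.log n))) := by
          apply mul_le_mul_of_nonneg_left _ (by positivity)
          exact mul_le_mul_of_nonneg_right hfac (Real.exp_pos _).le
  refine hfin.trans (mul_le_mul_of_nonneg_left (Real.exp_le_exp.2 ?_) (by positivity))
  rw [hVlog]
  have hm0 : (0 : ℝ) < m := by linarith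
  have hlogm : Real.log m ≤ 2 * Real.log n := by
    rw [two_mul, ← Real.log_mul hn0.ne' hn0.ne']
    apply Real.log_le_log hm0
    nlinarith
  have hQ7 : (7.8 : ℝ) ≤ QQ := h7
  have b1 : (m : ℝ) * Real.log m ≤ 10 * (n * Real.log n) := by
    have h9 : (m : ℝ) ≤ 5 * n := by linarith
    calc (m : ℝ) * Real.log m ≤ m * (2 * Real.log n) := mul_le_mul_of_nonneg_left hlogm hm0.le
      _ ≤ (5 * n) * (2 * Real.log n) := mul_le_mul_of_nonneg_right h9 (by linarith)
      _ = 10 * (n * Real.log n) := by ring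
  have b2 : (m : ℝ) * (-κ * n) ≤ -(4 * κ * n ^ 2) + 6 * n := by
    have e1 : (4 * n - 1) * (κ * n) ≤ m * (κ * n) :=
      mul_le_mul_of_nonneg_right hmn2 (by positivity)
    have e2 : κ * n ≤ 6 * n := mul_le_mul_of_nonneg_right hκ6 hn0.le
    have e3 : (m : ℝ) * (-κ * n) = -(m * (κ * n)) := by ring
    have e4 : (4 * n - 1) * (κ * n) = 4 * κ * n ^ 2 - κ * n := by ring
    rw [e3]
    linarith
  have b3 : (m : ℝ) * (5 * n * Real.log n) ≤ 20 * (n ^ 2 * Real.log n) + 5 * (n * Real.log n) := by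
    have h9 : 0 ≤ 5 * n * Real.log n := by positivity
    have h10 := mul_le_mul_of_nonneg_right hmn h9
    refine h10.trans (le_of_eq ?_)
    ring
  have b4 : (m : ℝ) * (C * Real.log n) ≤ 5 * C * (n * Real.log n) := by
    have h9 : (m : ℝ) ≤ 5 * n := by linarith
    have h10 : 0 ≤ C * Real.log n := by positivity
    have h11 := mul_le_mul_of_nonneg_right h9 h10
    refine h11.trans (le_of_eq ?_)
    ring
  have b5 : (7.8 : ℝ) * n ^ 2 ≤ QQ * n ^ 2 := mul_le_mul_of_nonneg_right hQ7 (sq_nonneg n)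
  have b6 : (C4 + 5 * C + 40) * Real.log n * n ≤ 0.1 * n * n := mul_le_mul_of_nonneg_right hlog hn0.le
  have b7 : n * 1 ≤ n * Real.log n := mul_le_mul_of_nonneg_left hL1 hn0.le
  have b8 : (4 * κ + 7.7) * n ^ 2 = 4 * κ * n ^ 2 + 7.8 * n ^ 2 - 0.1 * n ^ 2 := by ring
  have b9 : (m : ℝ) * (-κ * n + 5 * n * Real.log n + C * Real.log n) =
      m * (-κ * n) + m * (5 * n * Real.log n) + m * (C * Real.log n) := by ring
  rw [b8, b9]
  linarith [hEn, hYE, b1, b2, b3, b4, b5, b6, b7]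

/-- **assembly** -/
theorem arch_of (h1 : S_bridge) (h3 : S_cert3) (h4 : S_cert4) (h5 : S_tail) (h6 : S_QQ) : S_arch := by
  intro Q hQ α β γ hr
  have hQr : 3 ≤ |(Q : ℝ)| := by
    rw [← Int.cast_abs]
    exact_mod_cast hQ
  have hl3 : (1.0986 : ℝ) ≤ Real.log |(Q : ℝ)| := by
    have h7 := Real.log_three_gt_d9
    have h8 : Real.log 3 ≤ Real.log |(Q : ℝ)| := Real.log_le_log (by norm_num) hQr
    linarith
  obtain ⟨c1, hc1, N1, hN1⟩ := arch_core h1 h6 (lq := 1.0986) (κ := 4.11) (by linarith [hQ] : 2 ≤ |Q|)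
    (by norm_num) (by norm_num) h3 h5 hl3 α β γ hr
  by_cases h4Q : 4 ≤ |Q|
  · have h4r : 4 ≤ |(Q : ℝ)| := by
      rw [← Int.cast_abs]
      exact_mod_cast h4Q
    have hl4 : (1.3862 : ℝ) ≤ Real.log |(Q : ℝ)| := by
      have h7 := Real.log_two_gt_d9
      have h8 : Real.log 4 ≤ Real.log |(Q : ℝ)| := Real.log_le_log (by norm_num) h4r
      have h9 : Real.log 4 = 2 * Real.log 2 := by
        rw [show (4 : ℝ) = 2 ^ 2 by norm_num, Real.log_pow]
        norm_num
      linarith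
    obtain ⟨c2, hc2, N2, hN2⟩ := arch_core h1 h6 (lq := 1.3862) (κ := 5.13) (by linarith [hQ] : 2 ≤ |Q|)
      (by norm_num) (by norm_num) h4 (fun v hv => by
        have := h5 v hv
        linarith) hl4 α β γ hr
    refine ⟨max c1 c2, lt_max_of_lt_left hc1, N1 + N2, fun N hN m hm1 hm2 => ⟨?_, fun _ => ?_⟩⟩
    · refine (hN1 N (by omega) m hm1 hm2).trans ?_
      refine mul_le_mul (pow_le_pow_left₀ hc1.le (le_max_left _ _) m) (Real.exp_le_exp.2 ?_)
        (Real.exp_pos _).le (by positivity)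
      have : 0 ≤ (10000 * (N : ℝ)) ^ 2 := sq_nonneg _
      linarith
    · refine (hN2 N (by omega) m hm1 hm2).trans ?_
      refine mul_le_mul (pow_le_pow_left₀ hc2.le (le_max_right _ _) m) (Real.exp_le_exp.2 ?_)
        (Real.exp_pos _).le (by positivity)
      have : 0 ≤ (10000 * (N : ℝ)) ^ 2 := sq_nonneg _
      linarith
  · refine ⟨c1, hc1, N1, fun N hN m hm1 hm2 => ⟨?_, fun h => absurd h h4Q⟩⟩
    refine (hN1 N hN m hm1 hm2).trans ?_
    refine mul_le_mul_of_nonneg_left (Real.exp_le_exp.2 ?_) (by positivity)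
    have : 0 ≤ (10000 * (N : ℝ)) ^ 2 := sq_nonneg _
    linarith

end

end Pool.Agent.TH50.DQ
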