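import Pool.Agent.TH50.DQ.ArchDefs
import Pool.Agent.TH844.DL.Brick

/-! The nodes for `|Q| ≥ 3`: cardinality, potential, energy (port of `TH844/DL/Nodes.lean` by helper844). -/

open Finset Pool.Agent.H337R2

namespace Pool.Agent.TH50.DQ

open Pool.Agent.TH844.DL (pot_comb br br_diag cell_br br_sum br_scale Psi_scale)

noncomputable section

lemma dd_pos {i : ℕ} (hi : i < 10) : 0 < (dd i : ℝ) := by
  have : ∀ i < 10, 0 < dd i := by decide
  exact_mod_cast this i hi

lemma nkk_le {i j : ℕ} (hij : i < j) (hj : j < 10) : kk (i + 1) ≤ kk j := by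
  have : ∀ j < 10, ∀ i < j, kk (i + 1) ≤ kk j := by decide
  exact this j hj i hij

lemma kk_bd {i : ℕ} (hi : i < 10) : kk i ≤ kk (i + 1) ∧ kk (i + 1) ≤ 1127 := by
  have : ∀ i < 10, kk i ≤ kk (i + 1) ∧ kk (i + 1) ≤ 1127 := by decide
  exact this i hi

lemma dd_ge {i : ℕ} (hi : i < 10) : 7 ≤ dd i := by
  have : ∀ i < 10, 7 ≤ dd i := by decide
  exact this i hi

lemma edge (N : ℕ) {i : ℕ} (hi : i < 10) :
    100 / (dd i : ℝ) * ((ct i * N : ℕ) : ℝ) = 100 * N * kk (i + 1) - 100 * N * kk i := by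
  have h := dd_pos hi
  have h2 : ((ct i * N : ℕ) : ℝ) = (dd i : ℝ) * ((kk (i + 1) : ℝ) - kk i) * N := by
    unfold ct
    push_cast [Nat.cast_sub (kk_bd hi).1]
    ring
  rw [h2]
  field_simp

/-- left end of a cell -/
def le' (N i j : ℕ) : ℝ := 100 * N * kk i + 100 / dd i * (j : ℝ)

lemma node_eq (N i j : ℕ) : node N i j = (le' N i j + le' N i (j + 1)) / 2 := by
  unfold node le'
  push_cast
  ring

lemma le_succ (N i j : ℕ) : le' N i (j + 1) = le' N i j + 100 / dd i := by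
  unfold le'
  push_cast
  ring

lemma le_top {N i j : ℕ} (hi : i < 10) (hj : j ≤ ct i * N) : le' N i j ≤ 100 * N * kk (i + 1) := by
  have h1 := edge N hi
  have h2 : 100 / (dd i : ℝ) * (j : ℝ) ≤ 100 / (dd i : ℝ) * ((ct i * N : ℕ) : ℝ) := by
    have := dd_pos hi
    apply mul_le_mul_of_nonneg_left _ (by positivity)
    exact_mod_cast hj
  unfold le'
  linarith

lemma mem_IN {N : ℕ} {p : Σ _ : ℕ, ℕ} : p ∈ IN N ↔ p.1 < 10 ∧ p.2 < ct p.1 * N := by
  unfold IN
  rw [mem_sigma, mem_range, mem_range]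

lemma cells {N : ℕ} {p q : Σ _ : ℕ, ℕ} (hp : p ∈ IN N) (hq : q ∈ IN N) (hne : p ≠ q) :
    le' N p.1 (p.2 + 1) ≤ le' N q.1 q.2 ∨ le' N q.1 (q.2 + 1) ≤ le' N p.1 p.2 := by
  rw [mem_IN] at hp hq
  have hN : (0 : ℝ) ≤ N := Nat.cast_nonneg N
  have key : ∀ {i j i' j' : ℕ}, i < 10 → j < ct i * N → i' < 10 → i < i' → le' N i (j + 1) ≤ le' N i' j' := by
    intro i j i' j' hi hj hi' hii
    have h1 := le_top (N := N) hi (show j + 1 ≤ ct i * N from hj)
    have h2 : (kk (i + 1) : ℝ) ≤ kk i' := by exact_mod_cast nkk_le hii hi'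
    have h3 : 100 * (N : ℝ) * kk (i + 1) ≤ 100 * N * kk i' := mul_le_mul_of_nonneg_left h2 (by positivity)
    have h4 : 0 ≤ 100 / (dd i' : ℝ) * (j' : ℝ) := by
      have := dd_pos hi'
      positivity
    have h5 : 100 * (N : ℝ) * kk i' ≤ le' N i' j' := by unfold le'; linarith
    linarith
  rcases lt_trichotomy p.1 q.1 with h | h | h
  · exact Or.inl (key hp.1 hp.2 hq.1 h)
  · have h2 : p.2 ≠ q.2 := by
      intro h2
      apply hne
      obtain ⟨a, b⟩ := p
      obtain ⟨c, d⟩ := q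
      simp only at h h2
      subst h h2
      rfl
    have hd := dd_pos hp.1
    have hd0 : 0 ≤ 100 / (dd p.1 : ℝ) := by positivity
    rcases lt_or_gt_of_ne h2 with h3 | h3
    · left
      rw [← h]
      unfold le'
      have : ((p.2 + 1 : ℕ) : ℝ) ≤ q.2 := by exact_mod_cast h3
      linarith [mul_le_mul_of_nonneg_left this hd0]
    · right
      rw [← h]
      unfold le'
      have : ((q.2 + 1 : ℕ) : ℝ) ≤ p.2 := by exact_mod_cast h3
      linarith [mul_le_mul_of_nonneg_left this hd0]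
  · exact Or.inr (key hq.1 hq.2 hp.1 h)

lemma le_lt {N i j : ℕ} (hi : i < 10) : le' N i j < le' N i (j + 1) := by
  rw [le_succ]
  have := dd_pos hi
  have : 0 < 100 / (dd i : ℝ) := by positivity
  linarith

lemma node_inj (N : ℕ) : Set.InjOn (fun p : Σ _ : ℕ, ℕ => node N p.1 p.2) (IN N) := by
  intro p hp q hq h
  have hp' : p ∈ IN N := hp
  have hq' : q ∈ IN N := hq
  by_contra hne
  have h1 := cells hp' hq' hne
  have h2 := le_lt (N := N) (j := p.2) (mem_IN.1 hp').1
  have h3 := le_lt (N := N) (j := q.2) (mem_IN.1 hq').1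
  simp only at h
  rw [node_eq, node_eq] at h
  rcases h1 with h1 | h1 <;> linarith

theorem A_card : S_card := by
  intro N hN
  constructor
  · unfold YN
    rw [card_image_of_injOn (node_inj N)]
    unfold IN
    rw [card_sigma]
    simp only [card_range]
    rw [← sum_mul]
    have : ∑ i ∈ range 10, ct i = 40000 := by decide
    rw [this]
  · intro y hy
    unfold YN at hy
    rw [mem_image] at hy
    obtain ⟨p, hp, rfl⟩ := hy
    rw [mem_IN] at hp
    have h1 := le_top (N := N) hp.1 (show p.2 + 1 ≤ ct p.1 * N from hp.2)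
    have h2 := le_lt (N := N) (j := p.2) hp.1
    have h3 : (kk (p.1 + 1) : ℝ) ≤ 1127 := by exact_mod_cast (kk_bd hp.1).2
    have hN0 : (0 : ℝ) < N := by exact_mod_cast hN
    have h4 : 100 * (N : ℝ) * kk (p.1 + 1) ≤ 100 * N * 1127 := mul_le_mul_of_nonneg_left h3 (by positivity)
    have h5 : 0 ≤ le' N p.1 p.2 := by
      unfold le'
      positivity
    rw [node_eq]
    constructor <;> linarith

lemma sum_YN (N : ℕ) (g : ℝ → ℝ) :
    ∑ y ∈ YN N, g y = ∑ i ∈ range 10, ∑ j ∈ range (ct i * N), g (node N i j) := by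
  unfold YN
  rw [sum_image (node_inj N)]
  unfold IN
  rw [sum_sigma]

lemma sum_w : ∑ i ∈ range 10, (dd i : ℝ) / 100 * ((kk (i + 1) : ℝ) / 100 - (kk i : ℝ) / 100) = 4 := by
  simp only [sum_range_succ, sum_range_zero, dd, kk]
  norm_num

theorem A_pot : S_pot := by
  refine ⟨210, by norm_num, ?_⟩
  intro N hN s hs
  have hN0 : (1 : ℝ) ≤ N := by exact_mod_cast hN
  obtain ⟨n, hn⟩ : ∃ n : ℝ, n = 10000 * N := ⟨_, rfl⟩
  rw [← hn]
  have hn0 : 0 < n := by linarith
  have hn1 : 10000 ≤ n := by linarith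
  obtain ⟨Lg, hLg⟩ : ∃ Lg : ℝ, Lg = Real.log (n + s) := ⟨_, rfl⟩
  rw [← hLg]
  have hL1 : 1 ≤ Lg := by
    rw [hLg, Real.le_log_iff_exp_le (by linarith)]
    linarith [Real.exp_one_lt_d9]
  rw [sum_YN]
  have key : ∀ i ∈ range 10, ∑ j ∈ range (ct i * N), Real.log (|s - node N i j| + 1) ≤
      n * ((dd i : ℝ) / 100 * (Psi (s / n - kk i / 100) - Psi (s / n - kk (i + 1) / 100))) +
        n * Real.log n * ((dd i : ℝ) / 100 * ((kk (i + 1) : ℝ) / 100 - kk i / 100)) +
        ((dd i : ℝ) + 50) / 100 * (6 * Lg) := by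
    intro i hi
    rw [mem_range] at hi
    have hd := dd_pos hi
    have hd7 : (7 : ℝ) ≤ dd i := by exact_mod_cast dd_ge hi
    have h := pot_comb (100 * N * kk i) (100 / dd i) s (by positivity) (ct i * N)
    rw [edge N hi] at h
    have e1 : s - 100 * N * kk i = n * (s / n - kk i / 100) := by
      rw [hn]; field_simp; ring
    have e2 : s - 100 * N * kk i - (100 * N * kk (i + 1) - 100 * N * kk i) = n * (s / n - kk (i + 1) / 100) := by
      rw [hn]; field_simp; ring
    have hk := kk_bd hi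
    have hk1 : (kk i : ℝ) ≤ kk (i + 1) := by exact_mod_cast hk.1
    have hk2 : (kk (i + 1) : ℝ) ≤ 1127 := by exact_mod_cast hk.2
    have hk0 : (0 : ℝ) ≤ kk i := Nat.cast_nonneg _
    have hd8 : 1 + 100 / (dd i : ℝ) / 2 ≤ 9 := by
      have : 100 / (dd i : ℝ) ≤ 100 / 7 := by gcongr
      linarith
    have hd9 : 0 < 1 + 100 / (dd i : ℝ) / 2 := by positivity
    have hlog : Real.log (|s - 100 * N * kk i| + (100 * N * kk (i + 1) - 100 * N * kk i) +
        (1 + 100 / (dd i : ℝ) / 2)) ≤ 2 * Lg := by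
      rw [hLg, two_mul, ← Real.log_mul (by linarith) (by linarith)]
      have hab : |s - 100 * N * kk i| ≤ s + 100 * N * kk i := by
        have h0 : 0 ≤ 100 * (N : ℝ) * kk i := by positivity
        rw [abs_le]; constructor <;> linarith
      have h9 : 100 * (N : ℝ) * kk (i + 1) ≤ 100 * N * 1127 := mul_le_mul_of_nonneg_left hk2 (by positivity)
      have h10 : 100 * (N : ℝ) * kk i ≤ 100 * N * kk (i + 1) := mul_le_mul_of_nonneg_left hk1 (by positivity)
      apply Real.log_le_log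
      · have := abs_nonneg (s - 100 * N * kk i)
        linarith
      · have h11 : |s - 100 * N * kk i| + (100 * N * kk (i + 1) - 100 * N * kk i) +
          (1 + 100 / (dd i : ℝ) / 2) ≤ s + 100 * N * 1127 + 9 := by linarith
        refine h11.trans ?_
        have h12 : 100 * (N : ℝ) * 1127 = 11.27 * n := by rw [hn]; ring
        rw [h12]
        nlinarith
    rw [e2] at h
    rw [Psi_scale hn0] at h
    rw [e1, Psi_scale hn0] at h
    rw [e1] at hlog
    have h3 : ∑ j ∈ range (ct i * N), Real.log (|s - node N i j| + 1) =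
        (dd i : ℝ) / 100 * (100 / dd i * ∑ j ∈ range (ct i * N),
          Real.log (|s - (100 * N * kk i + 100 / dd i * ((j : ℝ) + 1 / 2))| + 1)) := by
      rw [← mul_assoc]
      have : (dd i : ℝ) / 100 * (100 / dd i) = 1 := by field_simp
      rw [this, one_mul]
      rfl
    rw [h3]
    have h4 := mul_le_mul_of_nonneg_left h (by positivity : 0 ≤ (dd i : ℝ) / 100)
    refine h4.trans ?_
    have h5 := mul_le_mul_of_nonneg_left hlog hd9.le
    have h6 : (1 + 100 / (dd i : ℝ) / 2) * Real.log (|n * (s / n - kk i / 100)| +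
        (100 * N * kk (i + 1) - 100 * N * kk i) + (1 + 100 / (dd i : ℝ) / 2)) + (1 + 100 / (dd i : ℝ) / 2) ≤
        (1 + 100 / (dd i : ℝ) / 2) * (3 * Lg) := by nlinarith
    have h7 : (dd i : ℝ) / 100 * (2 * ((1 + 100 / (dd i : ℝ) / 2) * (3 * Lg))) =
        ((dd i : ℝ) + 50) / 100 * (6 * Lg) := by
      field_simp
      ring
    have h8 := mul_le_mul_of_nonneg_left (mul_le_mul_of_nonneg_left h6 (by norm_num : (0 : ℝ) ≤ 2))
      (by positivity : 0 ≤ (dd i : ℝ) / 100)
    rw [h7] at h8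
    linarith
  refine (sum_le_sum key).trans ?_
  rw [sum_add_distrib, sum_add_distrib, ← mul_sum, ← mul_sum, sum_w, ← sum_mul]
  have h9 : ∑ i ∈ range 10, ((dd i : ℝ) + 50) / 100 = 3370 / 100 := by
    simp only [sum_range_succ, sum_range_zero, dd]
    norm_num
  rw [h9]
  unfold UU
  linarith

/-- bracket of two cells, divided by their lengths -/
lemma log_cells {N : ℕ} {p q : Σ _ : ℕ, ℕ} (hp : p ∈ IN N) (hq : q ∈ IN N) :
    ((dd p.1 : ℝ) / 100) * ((dd q.1 : ℝ) / 100) *
      br (le' N p.1 p.2) (le' N p.1 (p.2 + 1)) (le' N q.1 q.2) (le' N q.1 (q.2 + 1)) -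
      (if p = q then 3 else 0) ≤ Real.log |node N p.1 p.2 - node N q.1 q.2| := by
  have hp1 := (mem_IN.1 hp).1
  have hq1 := (mem_IN.1 hq).1
  have hdp := dd_pos hp1
  have hdq := dd_pos hq1
  by_cases h : p = q
  · subst h
    rw [if_pos rfl, sub_self, abs_zero, Real.log_zero, le_succ, br_diag]
    have h7 : (7 : ℝ) ≤ dd p.1 := by exact_mod_cast dd_ge hp1
    have hl : Real.log (100 / dd p.1) ≤ 3 := by
      have h1 : 100 / (dd p.1 : ℝ) ≤ 100 / 7 := by gcongr
      have h2 : Real.log (100 / (dd p.1 : ℝ)) ≤ Real.log 16 := by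
        apply Real.log_le_log (by positivity)
        linarith [show (100 : ℝ) / 7 ≤ 16 by norm_num]
      have h3 : Real.log 16 = 4 * Real.log 2 := by
        rw [show (16 : ℝ) = 2 ^ 4 by norm_num, Real.log_pow]; norm_num
      linarith [Real.log_two_lt_d9]
    have e : (dd p.1 : ℝ) / 100 * (dd p.1 / 100) * ((100 / dd p.1) ^ 2 * Real.log (100 / dd p.1) -
        3 / 2 * (100 / dd p.1) ^ 2) = Real.log (100 / dd p.1) - 3 / 2 := by
      field_simp
    rw [e]
    linarith
  · rw [if_neg h, sub_zero]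
    have h1 := cell_br (le_lt (N := N) (j := p.2) hp1).le (le_lt (N := N) (j := q.2) hq1).le (cells hp hq h)
    rw [← node_eq, ← node_eq, le_succ, le_succ] at h1
    have h2 := mul_le_mul_of_nonneg_left h1 (by positivity : 0 ≤ ((dd p.1 : ℝ) / 100) * ((dd q.1 : ℝ) / 100))
    have e : ((dd p.1 : ℝ) / 100) * ((dd q.1 : ℝ) / 100) * ((le' N p.1 p.2 + 100 / dd p.1 - le' N p.1 p.2) *
        (le' N q.1 q.2 + 100 / dd q.1 - le' N q.1 q.2) * Real.log |node N p.1 p.2 - node N q.1 q.2|) =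
        Real.log |node N p.1 p.2 - node N q.1 q.2| := by
      have : ((dd p.1 : ℝ) / 100) * ((dd q.1 : ℝ) / 100) * ((100 / dd p.1) * (100 / dd q.1)) = 1 := by
        field_simp
      rw [add_sub_cancel_left, add_sub_cancel_left, ← mul_assoc, this, one_mul]
    rw [e] at h2
    rw [le_succ, le_succ]
    exact h2

theorem A_energy : S_energy := by
  refine ⟨12, by norm_num, ?_⟩
  intro N hN
  have hN0 : (1 : ℝ) ≤ N := by exact_mod_cast hN
  obtain ⟨n, hn⟩ : ∃ n : ℝ, n = 10000 * N := ⟨_, rfl⟩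
  rw [← hn]
  have hn0 : 0 < n := by linarith
  have hn1 : 10000 ≤ n := by linarith
  have hL1 : 1 ≤ Real.log n := by
    rw [Real.le_log_iff_exp_le (by linarith)]
    linarith [Real.exp_one_lt_d9]
  -- the diagonal terms vanish
  have h1 : ∀ y ∈ YN N, ∑ z ∈ (YN N).erase y, Real.log |y - z| = ∑ z ∈ YN N, Real.log |y - z| := by
    intro y hy
    rw [← add_sum_erase _ _ hy, sub_self, abs_zero, Real.log_zero, zero_add]
  rw [sum_congr rfl h1]
  unfold YN
  rw [sum_image (node_inj N)]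
  simp only [sum_image (node_inj N)]
  have h2 : ∑ p ∈ IN N, ∑ q ∈ IN N, (((dd p.1 : ℝ) / 100) * ((dd q.1 : ℝ) / 100) *
      br (le' N p.1 p.2) (le' N p.1 (p.2 + 1)) (le' N q.1 q.2) (le' N q.1 (q.2 + 1)) -
      (if p = q then 3 else 0)) ≤ ∑ p ∈ IN N, ∑ q ∈ IN N, Real.log |node N p.1 p.2 - node N q.1 q.2| :=
    sum_le_sum fun p hp => sum_le_sum fun q hq => log_cells hp hq
  refine le_trans ?_ h2
  have h3 : ∑ p ∈ IN N, ∑ q ∈ IN N, (if p = q then (3 : ℝ) else 0) = 12 * n := by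
    have : ∀ p ∈ IN N, ∑ q ∈ IN N, (if p = q then (3 : ℝ) else 0) = 3 := by
      intro p hp
      rw [sum_ite_eq, if_pos hp]
    rw [sum_congr rfl this, sum_const, nsmul_eq_mul]
    have hc : (IN N).card = 40000 * N := by
      have := (A_card N hN).1
      unfold YN at this
      rwa [card_image_of_injOn (node_inj N)] at this
    rw [hc, hn]
    push_cast
    ring
  simp only [sum_sub_distrib]
  rw [h3]
  -- the main term
  have h4 : ∑ p ∈ IN N, ∑ q ∈ IN N, ((dd p.1 : ℝ) / 100) * ((dd q.1 : ℝ) / 100) *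
      br (le' N p.1 p.2) (le' N p.1 (p.2 + 1)) (le' N q.1 q.2) (le' N q.1 (q.2 + 1)) =
      ∑ i ∈ range 10, ∑ k ∈ range 10, ((dd i : ℝ) / 100) * ((dd k : ℝ) / 100) *
        br (n * (kk i / 100)) (n * (kk (i + 1) / 100)) (n * (kk k / 100)) (n * (kk (k + 1) / 100)) := by
    unfold IN
    rw [sum_sigma]
    simp only [sum_sigma]
    refine sum_congr rfl fun i hi => ?_
    rw [mem_range] at hi
    rw [sum_comm]
    refine sum_congr rfl fun k hk => ?_
    rw [mem_range] at hk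
    have h5 := br_sum (100 * N * kk i) (100 / dd i) (100 * N * kk k) (100 / dd k) (ct i * N) (ct k * N)
    rw [edge N hi, edge N hk] at h5
    have e1 : 100 * (N : ℝ) * kk i + (100 * N * kk (i + 1) - 100 * N * kk i) = n * (kk (i + 1) / 100) := by
      rw [hn]; ring
    have e2 : 100 * (N : ℝ) * kk k + (100 * N * kk (k + 1) - 100 * N * kk k) = n * (kk (k + 1) / 100) := by
      rw [hn]; ring
    have e3 : n * ((kk i : ℝ) / 100) = 100 * N * kk i := by rw [hn]; ring
    have e4 : n * ((kk k : ℝ) / 100) = 100 * N * kk k := by rw [hn]; ring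
    rw [e1, e2] at h5
    rw [e3, e4, ← h5, mul_sum]
    refine sum_congr rfl fun j _ => ?_
    rw [mul_sum]
    rfl
  rw [h4]
  simp only [br_scale hn0]
  have h6 : ∑ i ∈ range 10, ∑ k ∈ range 10, ((dd i : ℝ) / 100) * ((dd k : ℝ) / 100) *
      (n ^ 2 * br (kk i / 100) (kk (i + 1) / 100) (kk k / 100) (kk (k + 1) / 100) +
        n ^ 2 * Real.log n * (((kk (i + 1) : ℝ) / 100 - kk i / 100) * ((kk (k + 1) : ℝ) / 100 - kk k / 100))) =
      n ^ 2 * QQ + n ^ 2 * Real.log n * ((∑ i ∈ range 10, (dd i : ℝ) / 100 * ((kk (i + 1) : ℝ) / 100 - (kk i : ℝ) / 100)) *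
        ∑ i ∈ range 10, (dd i : ℝ) / 100 * ((kk (i + 1) : ℝ) / 100 - (kk i : ℝ) / 100)) := by
    unfold QQ br
    rw [sum_mul_sum, mul_sum, mul_sum, ← sum_add_distrib]
    refine sum_congr rfl fun i _ => ?_
    rw [mul_sum, mul_sum, ← sum_add_distrib]
    refine sum_congr rfl fun k _ => ?_
    ring
  rw [h6, sum_w]
  nlinarith

end

end Pool.Agent.TH50.DQ
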